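import Mathlib
import Pool.Agent.KS6_48.ElevenTwo.Digits
import Pool.Graph.R_seed8.Results.MP_550cbf_nt.Integrality

/-!
# The numbers `a_n` of the `(11k+3)`-weighted binomial sum: integrality and the exact power of two

For `n ≥ 2` the number `a_n` is an integer which is divisible by `2 ^ (s - 1)`, where `s` is the
binary digit sum of `n - 1`.  It is not divisible by `2 ^ s` if and only if `n - 1` is even and has
no two adjacent binary digits equal to one.  It is odd if and only if `n - 1` is one of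
`2, 4, 8, 16, ...`.
-/

set_option autoImplicit false

namespace Pool.Agent.Results.MP_550cbf_nt.PowersOfTwo

open Finset Pool.Agent.KS6_48.ElevenTwo

/-- the numbers `a_n` of the problem -/
noncomputable def a (n : ℕ) : ℚ :=
  1 / ((n : ℚ) * (2 * n + 1) * ((2 * n).choose n : ℚ)) *
    ∑ k ∈ range n, (11 * (k : ℚ) + 3) * ((2 * k).choose k : ℚ) ^ 2 * ((3 * k).choose k : ℚ) *
      64 ^ (n - 1 - k)

/-- the sum of the binary digits of `n` -/
def digitSum (n : ℕ) : ℕ := (Nat.digits 2 n).sum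

/-- no two adjacent binary digits of `n` are both equal to one -/
def NoAdjacentOnes (n : ℕ) : Prop := ∀ i : ℕ, ¬ (n.testBit i = true ∧ n.testBit (i + 1) = true)

/-- the summands -/
def t (m k : ℕ) : ℕ := (11 * k + 3) * (2 * k).choose k ^ 2 * (3 * k).choose k * 64 ^ (m - k)

theorem t_pos (m k : ℕ) : 0 < t m k := by
  unfold t
  have h1 : 0 < (2 * k).choose k := Nat.choose_pos (by omega)
  have h2 : 0 < (3 * k).choose k := Nat.choose_pos (by omega)
  positivity

theorem head {m k : ℕ} (hk : k < m) : 2 ^ (2 * s m + 1) ∣ t m k := by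
  have h1 : 2 ^ (s k) ∣ (2 * k).choose k := by
    rw [← val_two k]; exact pow_padicValNat_dvd
  have h2 : 2 ^ (2 * s k) ∣ (2 * k).choose k ^ 2 := by
    rw [mul_comm, pow_mul]; exact pow_dvd_pow_of_dvd h1 2
  have h3 : (64 : ℕ) ^ (m - k) = 2 ^ (6 * (m - k)) := by
    rw [pow_mul]; norm_num
  have h4 := s_add k (m - k)
  have h5 := s_le (m - k)
  rw [show k + (m - k) = m by omega] at h4
  have h6 : 2 ^ (2 * s m + 1) ∣ (2 * k).choose k ^ 2 * 64 ^ (m - k) := by
    rw [h3]
    refine dvd_trans ?_ (mul_dvd_mul h2 (dvd_refl _))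
    rw [← pow_add]
    exact pow_dvd_pow 2 (by omega)
  have h7 : t m k = (2 * k).choose k ^ 2 * 64 ^ (m - k) * ((11 * k + 3) * (3 * k).choose k) := by
    unfold t; ring
  rw [h7]
  exact dvd_mul_of_dvd_left h6 _

theorem last (m : ℕ) : padicValNat 2 (t m m) + s (3 * m) = padicValNat 2 (11 * m + 3) + 4 * s m := by
  have h1 : (2 * m).choose m ≠ 0 := (Nat.choose_pos (by omega)).ne'
  have h2 : (3 * m).choose m ≠ 0 := (Nat.choose_pos (by omega)).ne'
  have h3 := val_two m
  have h4 := val_three m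
  unfold t
  rw [Nat.sub_self, pow_zero, mul_one, padicValNat.mul (by positivity) h2,
    padicValNat.mul (by omega) (by positivity), padicValNat.pow, h3]
  omega

theorem three_le (m : ℕ) : s (3 * m) ≤ 2 * s m := by
  have := val_three m
  omega

theorem last_dvd (m : ℕ) : 2 ^ (2 * s m) ∣ t m m := by
  rw [padicValNat_dvd_iff_le (t_pos m m).ne']
  have h1 := last m
  have h2 := three_le m
  omega

theorem last_iff (m : ℕ) : ¬ 2 ^ (2 * s m + 1) ∣ t m m ↔ Even m ∧ Sparse m := by
  rw [padicValNat_dvd_iff_le (t_pos m m).ne']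
  have h1 := last m
  have h2 := three_le m
  have h3 : padicValNat 2 (11 * m + 3) = 0 ↔ Even m := by
    rw [padicValNat.eq_zero_iff]
    constructor
    · rintro (h | h | h)
      · omega
      · omega
      · rw [Nat.even_iff]; omega
    · intro h
      rw [Nat.even_iff] at h
      right; right; omega
  rw [← s_three, ← h3]
  omega

theorem main (m : ℕ) (hm : 1 ≤ m) :
    ∃ z : ℕ, (∑ k ∈ range (m + 1), t m k) = (m + 1) * (2 * (m + 1) + 1) * (2 * (m + 1)).choose (m + 1) * z ∧
      2 ^ (s m - 1) ∣ z ∧ (¬ 2 ^ (s m) ∣ z ↔ Even m ∧ Sparse m) := by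
  obtain ⟨z, hz⟩ := Pool.Agent.Results.MP_550cbf_nt.Integrality.result (m + 1) (by omega)
  have hz' : (∑ k ∈ range (m + 1), t m k) =
      (m + 1) * (2 * (m + 1) + 1) * (2 * (m + 1)).choose (m + 1) * z := by
    rw [← hz]
    rfl
  have hs := s_pos (show 0 < m by omega)
  have hS : 0 < ∑ k ∈ range (m + 1), t m k :=
    Finset.sum_pos (fun k _ => t_pos m k) ⟨0, by simp⟩
  have hC : (2 * (m + 1)).choose (m + 1) ≠ 0 := (Nat.choose_pos (by omega)).ne'
  have hz0 : z ≠ 0 := by
    rintro rfl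
    rw [mul_zero] at hz'
    omega
  have hv : padicValNat 2 ((m + 1) * (2 * (m + 1) + 1) * (2 * (m + 1)).choose (m + 1)) = s m + 1 := by
    rw [padicValNat.mul (by positivity) hC, padicValNat.mul (by omega) (by omega), val_two]
    have h1 : padicValNat 2 (2 * (m + 1) + 1) = 0 :=
      padicValNat.eq_zero_of_not_dvd (by omega)
    have h2 := s_succ m
    omega
  have hvS : padicValNat 2 (∑ k ∈ range (m + 1), t m k) = s m + 1 + padicValNat 2 z := by
    rw [hz', padicValNat.mul (mul_ne_zero (by positivity) hC) hz0, hv]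
  have hsum : (∑ k ∈ range (m + 1), t m k) = (∑ k ∈ range m, t m k) + t m m :=
    Finset.sum_range_succ _ _
  have hhead : 2 ^ (2 * s m + 1) ∣ ∑ k ∈ range m, t m k :=
    Finset.dvd_sum fun k hk => head (Finset.mem_range.1 hk)
  have h1 : 2 ^ (2 * s m) ∣ ∑ k ∈ range (m + 1), t m k := by
    rw [hsum]
    exact dvd_add (dvd_trans (pow_dvd_pow 2 (by omega)) hhead) (last_dvd m)
  have h2 : 2 ^ (2 * s m + 1) ∣ ∑ k ∈ range (m + 1), t m k ↔ 2 ^ (2 * s m + 1) ∣ t m m := by
    rw [hsum]
    exact Nat.dvd_add_right hhead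
  refine ⟨z, hz', ?_, ?_⟩
  · rw [padicValNat_dvd_iff_le hS.ne', hvS] at h1
    rw [padicValNat_dvd_iff_le hz0]
    omega
  · rw [← last_iff, ← h2, padicValNat_dvd_iff_le hS.ne', hvS, padicValNat_dvd_iff_le hz0]
    omega

/-- For `n ≥ 2` the number `a_n` is an integer, it is divisible by `2 ^ (s - 1)` where `s` is the
binary digit sum of `n - 1`, it is not divisible by `2 ^ s` if and only if `n - 1` is even without
two adjacent binary digits one, and it is odd if and only if `n = 2 ^ k + 1` for some `k ≥ 1`. -/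
theorem result (n : ℕ) (hn : 2 ≤ n) :
    ∃ z : ℕ, a n = z ∧
      2 ^ (digitSum (n - 1) - 1) ∣ z ∧
      (¬ 2 ^ digitSum (n - 1) ∣ z ↔ Even (n - 1) ∧ NoAdjacentOnes (n - 1)) ∧
      (Odd z ↔ ∃ k : ℕ, 1 ≤ k ∧ n = 2 ^ k + 1) := by
  obtain ⟨m, rfl⟩ : ∃ m, n = m + 1 := ⟨n - 1, by omega⟩
  obtain ⟨z, h1, h2, h3⟩ := main m (by omega)
  rw [Nat.add_sub_cancel]
  refine ⟨z, ?_, h2, h3, ?_⟩
  · have hC : ((2 * (m + 1)).choose (m + 1) : ℚ) ≠ 0 := by
      exact_mod_cast (Nat.choose_pos (by omega)).ne'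
    have h4 : (∑ k ∈ range (m + 1), (11 * (k : ℚ) + 3) * ((2 * k).choose k : ℚ) ^ 2 *
        ((3 * k).choose k : ℚ) * 64 ^ (m + 1 - 1 - k)) =
        ((m + 1 : ℕ) : ℚ) * (2 * ((m + 1 : ℕ) : ℚ) + 1) * ((2 * (m + 1)).choose (m + 1) : ℚ) * z := by
      have := congrArg (Nat.cast : ℕ → ℚ) h1
      simp only [t] at this
      push_cast at this ⊢
      exact this
    unfold a
    rw [h4]
    have h5 : ((m + 1 : ℕ) : ℚ) ≠ 0 := by positivity
    have h6 : 2 * ((m + 1 : ℕ) : ℚ) + 1 ≠ 0 := by positivity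
    field_simp
  · have hs := s_pos (show 0 < m by omega)
    rw [← Nat.not_even_iff_odd, even_iff_two_dvd]
    constructor
    · intro h
      have h4 : s m = 1 := by
        by_contra hne
        apply h
        refine dvd_trans ?_ h2
        exact dvd_pow_self 2 (by omega)
      rw [h4, pow_one] at h3
      obtain ⟨k, hk⟩ := eq_pow_of_s h4
      refine ⟨k, ?_, by rw [hk]⟩
      have h5 := (h3.1 h).1
      rcases k with _ | k
      · rw [hk] at h5
        exact absurd h5 (by decide)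
      · omega
    · rintro ⟨k, hk, hmk⟩
      have hm : m = 2 ^ k := by omega
      have h4 : s m = 1 := by rw [hm, s_pow]
      rw [h4, pow_one] at h3
      refine h3.2 ⟨?_, ?_⟩
      · rw [hm]
        exact (Nat.even_pow).2 ⟨by decide, by omega⟩
      · rw [hm]
        exact sparse_pow k

end Pool.Agent.Results.MP_550cbf_nt.PowersOfTwo
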